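import Mathlib
import Pool.Agent.Helper56.BR.Defs

/-!
# Piece B of block LOC (project BR): splitting by a root of unity

If `z` generates a maximal subfield of the division algebra `D` (degree `d`, `dim D = d ^ 2`)
and `z ^ N = 1`, every field `L` with a primitive `N`-th root of unity gives a representation
`D → M_d(L)`.
-/

set_option autoImplicit false

namespace Pool.Agent.Helper44.BR

open Polynomial Pool.Agent.Helper56.BR

universe u v w

theorem rep_of_root {F : Type u} [Field F] {D : Type v} [DivisionRing D] [Algebra F D]
    [FiniteDimensional F D] {d : ℕ} (hd : Module.finrank F D = d ^ 2) {N : ℕ} (hN : 0 < N)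
    {z : D} (hz : z ^ N = 1) (hdeg : (minpoly F z).natDegree = d) {L : Type w} [Field L]
    [Algebra F L] {y : L} (hy : IsPrimitiveRoot y N) : Rep F D L d := by
  classical
  have hint : IsIntegral F z := Algebra.IsIntegral.isIntegral z
  have hirr : Irreducible (minpoly F z) := minpoly.irreducible hint
  have : Fact (Irreducible (minpoly F z)) := ⟨hirr⟩
  have hne : minpoly F z ≠ 0 := hirr.ne_zero
  have hdpos : 0 < d := hdeg ▸ minpoly.natDegree_pos hint
  -- a root in `L`
  have hdvd : minpoly F z ∣ X ^ N - 1 := minpoly.dvd F z (by simp [hz])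
  have hsp : ((X ^ N - 1 : F[X]).map (algebraMap F L)).Splits := by
    have := X_pow_sub_one_splits hy
    simpa using this
  have hroot : ∃ y' : L, (minpoly F z).eval₂ (algebraMap F L) y' = 0 := by
    have h1 : ((minpoly F z).map (algebraMap F L)).Splits := by
      refine Splits.of_dvd hsp ?_ (Polynomial.map_dvd _ hdvd)
      intro h0
      have h2 : (X ^ N - 1 : L[X]) = 0 := by simpa using h0
      exact (X_pow_sub_C_ne_zero hN (1 : L)) (by simpa using h2)
    obtain ⟨y', hy'⟩ := h1.exists_eval_eq_zero (by
      rw [degree_map]
      exact (minpoly.degree_pos hint).ne')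
    exact ⟨y', by rwa [eval_map] at hy'⟩
  obtain ⟨y', hy'⟩ := hroot
  -- the subfield
  let j : AdjoinRoot (minpoly F z) →ₐ[F] D :=
    Ideal.Quotient.liftₐ (Ideal.span {minpoly F z}) (aeval z) (by
      intro a ha
      obtain ⟨b, rfl⟩ := Ideal.mem_span_singleton'.1 ha
      simp)
  let mod : Module (AdjoinRoot (minpoly F z)) D :=
    { smul := fun w x => x * j w
      one_smul := fun x => by
        change x * j 1 = x
        rw [map_one, mul_one]
      mul_smul := fun w w' x => by
        change x * j (w * w') = x * j w' * j w
        rw [mul_comm w w', map_mul, mul_assoc]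
      smul_zero := fun w => by
        change 0 * j w = 0
        rw [zero_mul]
      smul_add := fun w x x' => by
        change (x + x') * j w = x * j w + x' * j w
        rw [add_mul]
      add_smul := fun w w' x => by
        change x * j (w + w') = x * j w + x * j w'
        rw [map_add, mul_add]
      zero_smul := fun x => by
        change x * j 0 = 0
        rw [map_zero, mul_zero] }
  have smul_eq : ∀ (w : AdjoinRoot (minpoly F z)) (x : D), w • x = x * j w := fun _ _ => rfl
  have : IsScalarTower F (AdjoinRoot (minpoly F z)) D := ⟨fun c w x => by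
    rw [smul_eq, smul_eq, map_smul, mul_smul_comm]⟩
  have : Module.Finite F (AdjoinRoot (minpoly F z)) :=
    (AdjoinRoot.powerBasis hne).finite
  have : Module.Finite (AdjoinRoot (minpoly F z)) D := Module.Finite.of_restrictScalars_finite F _ _
  have hfin : Module.finrank (AdjoinRoot (minpoly F z)) D = d := by
    have h1 := Module.finrank_mul_finrank F (AdjoinRoot (minpoly F z)) D
    rw [(AdjoinRoot.powerBasis hne).finrank, AdjoinRoot.powerBasis_dim, hdeg, hd, pow_two] at h1
    exact Nat.eq_of_mul_eq_mul_left hdpos h1
  let b : Module.Basis (Fin d) (AdjoinRoot (minpoly F z)) D := Module.finBasisOfFinrankEq _ _ hfin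
  let lm : D →+* Module.End (AdjoinRoot (minpoly F z)) D :=
    { toFun := fun x =>
        { toFun := fun t => x * t
          map_add' := fun t t' => mul_add x t t'
          map_smul' := fun w t => by
            simp only [smul_eq, RingHom.id_apply, mul_assoc] }
      map_one' := by
        ext t
        simp
      map_mul' := fun x x' => by
        ext t
        simp [mul_assoc]
      map_zero' := by
        ext t
        simp
      map_add' := fun x x' => by
        ext t
        simp [add_mul] }
  have hlm : ∀ c : F, lm (algebraMap F D c) =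
      algebraMap (AdjoinRoot (minpoly F z)) _ (algebraMap F (AdjoinRoot (minpoly F z)) c) := by
    intro c
    ext t
    rw [Module.algebraMap_end_apply, smul_eq, AlgHom.commutes]
    exact Algebra.commutes c t
  let sg : AdjoinRoot (minpoly F z) →ₐ[F] L :=
    AdjoinRoot.liftAlgHom (minpoly F z) (Algebra.ofId F L) y' hy'
  let M1 : Module.End (AdjoinRoot (minpoly F z)) D ≃ₐ[AdjoinRoot (minpoly F z)]
    Matrix (Fin d) (Fin d) (AdjoinRoot (minpoly F z)) := LinearMap.toMatrixAlgEquiv b
  refine ⟨{ toRingHom := (sg.mapMatrix.toRingHom.comp M1.toRingHom).comp lm, commutes' := ?_ }⟩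
  intro c
  change sg.mapMatrix (M1 (lm (algebraMap F D c))) = _
  rw [hlm, AlgEquiv.commutes]
  rw [← IsScalarTower.algebraMap_apply, AlgHom.commutes]

end Pool.Agent.Helper44.BR
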